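import Pool.Agent.Lib.MP_2d002d_gt.PM.Defs

set_option autoImplicit false

/-!
Bounded continuous functions on `[0, ∞)` and the weight `exp (-z)`.
-/

open MeasureTheory Set Filter Topology

namespace Pool.Agent.Lib.MP_2d002d_gt.PM.H79

open Pool.Agent.Lib.MP_2d002d_gt.PM

theorem Bd.const (c : ℝ) : Bd (fun _ => c) :=
  ⟨continuousOn_const, |c|, fun _ _ => le_rfl⟩

theorem Bd.mul {f g : ℝ → ℝ} (hf : Bd f) (hg : Bd g) : Bd (fun z => f z * g z) := by
  obtain ⟨cf, C, hC⟩ := hf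
  obtain ⟨cg, D, hD⟩ := hg
  refine ⟨cf.mul cg, C * D, fun z hz => ?_⟩
  rw [abs_mul]
  exact mul_le_mul (hC z hz) (hD z hz) (abs_nonneg _) ((abs_nonneg _).trans (hC z hz))

theorem Bd.add {f g : ℝ → ℝ} (hf : Bd f) (hg : Bd g) : Bd (fun z => f z + g z) := by
  obtain ⟨cf, C, hC⟩ := hf
  obtain ⟨cg, D, hD⟩ := hg
  refine ⟨cf.add cg, C + D, fun z hz => ?_⟩
  exact (abs_add_le _ _).trans (add_le_add (hC z hz) (hD z hz))

theorem Bd.neg {f : ℝ → ℝ} (hf : Bd f) : Bd (fun z => - f z) := by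
  obtain ⟨cf, C, hC⟩ := hf
  refine ⟨cf.neg, C, fun z hz => ?_⟩
  rw [abs_neg]
  exact hC z hz

theorem Bd.sub {f g : ℝ → ℝ} (hf : Bd f) (hg : Bd g) : Bd (fun z => f z - g z) := by
  have := Bd.add hf (Bd.neg hg)
  simpa only [sub_eq_add_neg] using this

theorem Bd.sq {f : ℝ → ℝ} (hf : Bd f) : Bd (fun z => f z ^ 2) := by
  simpa only [pow_two] using Bd.mul hf hf

theorem Bd.sum {ι : Type*} (s : Finset ι) {f : ι → ℝ → ℝ} (hf : ∀ l ∈ s, Bd (f l)) :
    Bd (fun z => ∑ l ∈ s, f l z) := by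
  classical
  induction s using Finset.induction_on with
  | empty => simpa using Bd.const 0
  | insert a s ha ih =>
    have h1 := ih (fun l hl => hf l (Finset.mem_insert_of_mem hl))
    have h2 := hf a (Finset.mem_insert_self _ _)
    simp only [Finset.sum_insert ha]
    exact Bd.add h2 h1

theorem Bd.congr {f g : ℝ → ℝ} (hf : Bd f) (h : ∀ z, 0 ≤ z → f z = g z) : Bd g := by
  obtain ⟨cf, C, hC⟩ := hf
  refine ⟨cf.congr (fun z hz => (h z hz).symm), C, fun z hz => ?_⟩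
  rw [← h z hz]
  exact hC z hz

theorem BdD.mul {f f' g g' : ℝ → ℝ} (hf : BdD f f') (hg : BdD g g') :
    BdD (fun z => f z * g z) (fun z => f' z * g z + f z * g' z) := by
  obtain ⟨a, b, c⟩ := hf
  obtain ⟨a', b', c'⟩ := hg
  exact ⟨Bd.mul a a', Bd.add (Bd.mul b a') (Bd.mul a b'), fun z hz => (c z hz).mul (c' z hz)⟩

theorem Bd.int {f : ℝ → ℝ} (hf : Bd f) :
    IntegrableOn (fun z => Real.exp (-z) * f z) (Ioi 0) := by
  obtain ⟨cf, C, hC⟩ := hf
  have h1 : IntegrableOn (fun z : ℝ => C * Real.exp (-z)) (Ioi 0) :=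
    (integrableOn_exp_neg_Ioi 0).const_mul C
  refine Integrable.mono' h1 ?_ ?_
  · have : ContinuousOn (fun z => Real.exp (-z) * f z) (Ioi 0) :=
      (by fun_prop : Continuous fun z : ℝ => Real.exp (-z)).continuousOn.mul
        (cf.mono Ioi_subset_Ici_self)
    exact this.aestronglyMeasurable measurableSet_Ioi
  · refine (ae_restrict_iff' measurableSet_Ioi).2 (Eventually.of_forall fun z hz => ?_)
    rw [Real.norm_eq_abs, abs_mul, abs_of_pos (Real.exp_pos _), mul_comm]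
    exact mul_le_mul_of_nonneg_right (hC z (le_of_lt hz)) (Real.exp_pos _).le

/-- positivity of the integral -/
theorem int_pos {f : ℝ → ℝ} (hf : Bd f) (h : ∀ z, 0 ≤ z → 0 < f z) :
    0 < ∫ z in Ioi (0 : ℝ), Real.exp (-z) * f z := by
  have h0 : 0 ≤ᵐ[volume.restrict (Ioi (0 : ℝ))] fun z => Real.exp (-z) * f z :=
    (ae_restrict_iff' measurableSet_Ioi).2 (Eventually.of_forall fun z hz =>
      (mul_pos (Real.exp_pos _) (h z (le_of_lt hz))).le)
  rw [setIntegral_pos_iff_support_of_nonneg_ae h0 (Bd.int hf)]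
  have : (Function.support fun z => Real.exp (-z) * f z) ∩ Ioi 0 = Ioi 0 := by
    refine inter_eq_right.2 fun z hz => ?_
    exact (mul_pos (Real.exp_pos _) (h z (le_of_lt hz))).ne'
  rw [this]
  simp

theorem int_mono {f g : ℝ → ℝ} (hf : Bd f) (hg : Bd g) (h : ∀ z, 0 < z → f z ≤ g z) :
    ∫ z in Ioi (0 : ℝ), Real.exp (-z) * f z ≤ ∫ z in Ioi (0 : ℝ), Real.exp (-z) * g z :=
  setIntegral_mono_on (Bd.int hf) (Bd.int hg) measurableSet_Ioi fun z hz =>
    mul_le_mul_of_nonneg_left (h z hz) (Real.exp_pos _).le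

theorem int_congr {f g : ℝ → ℝ} (h : ∀ z, 0 < z → f z = g z) :
    ∫ z in Ioi (0 : ℝ), f z = ∫ z in Ioi (0 : ℝ), g z :=
  setIntegral_congr_fun measurableSet_Ioi fun z hz => h z hz

theorem int_add {f g : ℝ → ℝ} (hf : Bd f) (hg : Bd g) :
    ∫ z in Ioi (0 : ℝ), Real.exp (-z) * (f z + g z) =
      (∫ z in Ioi (0 : ℝ), Real.exp (-z) * f z) + ∫ z in Ioi (0 : ℝ), Real.exp (-z) * g z := by
  rw [← integral_add (Bd.int hf) (Bd.int hg)]
  refine int_congr fun z _ => ?_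
  ring

theorem int_smul {f : ℝ → ℝ} (c : ℝ) :
    ∫ z in Ioi (0 : ℝ), Real.exp (-z) * (c * f z) =
      c * ∫ z in Ioi (0 : ℝ), Real.exp (-z) * f z := by
  rw [← integral_const_mul]
  refine int_congr fun z _ => ?_
  ring

theorem int_sum {ι : Type*} (s : Finset ι) {f : ι → ℝ → ℝ} (hf : ∀ l ∈ s, Bd (f l)) :
    ∫ z in Ioi (0 : ℝ), Real.exp (-z) * (∑ l ∈ s, f l z) =
      ∑ l ∈ s, ∫ z in Ioi (0 : ℝ), Real.exp (-z) * f l z := by
  rw [← integral_finset_sum s fun l hl => Bd.int (hf l hl)]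
  refine int_congr fun z _ => ?_
  rw [Finset.mul_sum]

/-- Cauchy-Schwarz with the weight `exp (-z) F z`. -/
theorem cs {F f : ℝ → ℝ} (hF : Bd F) (hf : Bd f) (h : ∀ z, 0 ≤ z → 0 < F z) :
    ((∫ z in Ioi (0 : ℝ), Real.exp (-z) * (F z * f z)) /
      (∫ z in Ioi (0 : ℝ), Real.exp (-z) * F z)) ^ 2 *
      (∫ z in Ioi (0 : ℝ), Real.exp (-z) * F z) ≤
      ∫ z in Ioi (0 : ℝ), Real.exp (-z) * (F z * f z ^ 2) := by
  set Z := ∫ z in Ioi (0 : ℝ), Real.exp (-z) * F z with hZ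
  set I := ∫ z in Ioi (0 : ℝ), Real.exp (-z) * (F z * f z) with hI
  have hZ0 : 0 < Z := int_pos hF h
  set m := I / Z with hm
  have h1 : 0 ≤ ∫ z in Ioi (0 : ℝ), Real.exp (-z) * (F z * (f z - m) ^ 2) :=
    setIntegral_nonneg measurableSet_Ioi fun z hz =>
      mul_nonneg (Real.exp_pos _).le (mul_nonneg (h z (le_of_lt hz)).le (sq_nonneg _))
  have h2 : ∫ z in Ioi (0 : ℝ), Real.exp (-z) * (F z * (f z - m) ^ 2) =
      (∫ z in Ioi (0 : ℝ), Real.exp (-z) * (F z * f z ^ 2)) + ((-(2 * m)) * I + m ^ 2 * Z) := by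
    rw [hI, hZ, ← int_smul, ← int_smul, ← int_add, ← int_add]
    · refine int_congr fun z _ => ?_
      ring
    · exact Bd.mul hF (Bd.sq hf)
    · exact Bd.add (Bd.mul (Bd.const _) (Bd.mul hF hf)) (Bd.mul (Bd.const _) hF)
    · exact Bd.mul (Bd.const _) (Bd.mul hF hf)
    · exact Bd.mul (Bd.const _) hF
  have h3 : I = m * Z := by rw [hm]; field_simp
  rw [h2, h3] at h1
  nlinarith [h1]

end Pool.Agent.Lib.MP_2d002d_gt.PM.H79
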