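import Pool.Agent.Lib.MP_2d002d_gt.PM.Interfaces
import Pool.Agent.Lib.MP_2d002d_gt.PM.H79.Step1

set_option autoImplicit false

/-!
Module STEP: the class `Reg` is reproduced by integrating one wall against a profile.
-/

open MeasureTheory Set Filter Topology

namespace Pool.Agent.Lib.MP_2d002d_gt.PM.H79

open Pool.Agent.Lib.MP_2d002d_gt.PM

variable {n : ℕ} {α β : ℝ} {S : ℝ → ℝ} {i : Fin n}

theorem pt_mem (hS : Prof S) {p : ℝ × (Fin n → ℝ)} (hp : p ∈ Om n α β) {z : ℝ} (hz : 0 ≤ z) :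
    pt α β S i p z ∈ Om n α β := by
  refine ⟨hp.1, fun l => ?_⟩
  by_cases h : l = i
  · subst h
    simp only [pt, Function.update_self]
    exact mul_pos hp.1 (hS.pos z hz)
  · simp only [pt, Function.update_of_ne h]
    exact hp.2 l

theorem dr_ew_ne {l : Fin n} (h : l ≠ i) (z : ℝ) : dr β S i (ew l) z = ew l := by
  have : (Function.update (Pi.single l (1 : ℝ)) i (β * 0 * S z) : Fin n → ℝ) =
      Pi.single l (1 : ℝ) := by
    funext m
    by_cases hm : m = i
    · subst hm
      simp [Pi.single_eq_of_ne (Ne.symm h)]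
    · simp [Function.update_of_ne hm]
  simp only [dr, ew, this]

theorem dr_ew_self (z : ℝ) : dr β S i (ew i) z = 0 := by
  have : (Function.update (Pi.single i (1 : ℝ)) i (β * 0 * S z) : Fin n → ℝ) = 0 := by
    funext m
    by_cases hm : m = i
    · subst hm
      simp
    · simp [hm]
  simp only [dr, ew, this]
  rfl

theorem vec_eq (c : Fin n → ℝ) (t z : ℝ) :
    ((1 : ℝ), Function.update c i (β * S z + t)) =
      dr β S i (1, c) z + t • (ew i : ℝ × (Fin n → ℝ)) := by
  refine Prod.ext ?_ ?_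
  · simp [dr, ew]
  · funext m
    by_cases hm : m = i
    · subst hm
      simp [dr, ew]
    · simp [dr, ew, hm]

/-- the algebra of the pointwise inequality -/
theorem alg (X Y V w b S0 S1 S2 a q q1 Q : ℝ)
    (hh : X + q * (a * S1) * Y + q * (a * S1) * (Y + q * (a * S1) * V) ≤
      -(((b * S0 + q * (a * S1)) * w) ^ 2 + Q)) :
    X + 2 * q * (Y * (a * S1) + w * (b * 1 * S1)) +
      q ^ 2 * (V * (a * S1) * (a * S1) + w * (a * S2)) - q1 ^ 2 ≤
      -Q - ((b * S0 + a * S1 * q) ^ 2 * w ^ 2 - 2 * (b * S1) * q * w - a * S2 * q ^ 2 * w +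
        q1 ^ 2) := by
  nlinarith [hh]

theorem step (hC : COMP_S) (hT : TC2_S) (hV : VAR_S) (hP : P_S) (hL : LOGD_S) : STEP_S := by
  intro n α β S i H hS hR hW
  obtain ⟨tcd, tder⟩ := hT n α β S i H hS hR.cd
  obtain ⟨Mcd, Mder⟩ := hL n α β H hR.cd hR.pos
  have TTe : ∀ p, TT α β S i H p = ∫ z in Ioi (0 : ℝ), Real.exp (-z) * H (pt α β S i p z) := by
    intro p
    unfold TT
    exact int_congr fun z _ => mul_comm _ _
  have tpos : ∀ p ∈ Om n α β, 0 < TT α β S i H p := by
    intro p hp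
    rw [TTe]
    exact int_pos ((hC n α β S i H hS hR.cd p hp 0).1).1 (fun z hz => hR.pos _ (pt_mem hS hp hz))
  refine ⟨tcd, tpos, ?_⟩
  intro p hp c
  obtain ⟨-, Tder⟩ := hL n α β (TT α β S i H) tcd tpos
  obtain ⟨T1, T2, -⟩ := Tder p hp
  obtain ⟨t1, t2⟩ := tder p hp
  have Zpos := tpos p hp
  set DT := fderiv ℝ (fun q => Real.log (TT α β S i H q)) p with hDT
  set a := α + β * p.1 with ha
  have a0 : 0 < a := hp.1
  set P := fun z => pt α β S i p z with hPd
  have Pm : ∀ z, 0 ≤ z → P z ∈ Om n α β := fun z hz => pt_mem hS hp hz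
  set M : ℝ × (Fin n → ℝ) → ℝ := fun q => Real.log (H q) with hM
  set v : ℝ × (Fin n → ℝ) := (1, c) with hv
  -- the composition facts
  obtain ⟨m1, m2, m3, m4, m5, m6⟩ := hC n α β S i M hS Mcd p hp v
  obtain ⟨k1, k2, -, -, k5, k6⟩ := hC n α β S i H hS hR.cd p hp v
  have bS1 : BdD (fun z => a * S z) (fun z => a * deriv S z) := by
    obtain ⟨C, hCb⟩ := hS.bdd
    refine ⟨Bd.mul (Bd.const a) ⟨hS.smooth.continuous.continuousOn, C, fun z hz => (hCb z hz).1⟩,
      Bd.mul (Bd.const a) ⟨(hS.smooth.continuous_deriv (by norm_num)).continuousOn, C,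
        fun z hz => (hCb z hz).2.1⟩, fun z _ => ?_⟩
    exact ((hS.smooth.differentiable (by norm_num)).differentiableAt.hasDerivAt).const_mul a
  have bS2 : BdD (fun z => a * deriv S z) (fun z => a * deriv (deriv S) z) := by
    obtain ⟨C, hCb⟩ := hS.bdd
    have hd : ContDiff ℝ 1 (deriv S) := by
      have h2 : ContDiff ℝ (1 + 1) S := by
        rw [one_add_one_eq_two]
        exact hS.smooth
      exact (contDiff_succ_iff_deriv.1 h2).2.2
    refine ⟨bS1.2.1, Bd.mul (Bd.const a) ⟨(hd.continuous_deriv le_rfl).continuousOn, C,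
        fun z hz => (hCb z hz).2.2⟩, fun z _ => ?_⟩
    exact ((hd.differentiable (by norm_num)).differentiableAt.hasDerivAt).const_mul a
  have bl1 := BdD.mul m2 bS2
  -- exponential form
  have hexp : ∀ z, 0 < z → Real.exp (M (P z) - z) = Real.exp (-z) * H (P z) := by
    intro z hz
    rw [sub_eq_add_neg, Real.exp_add, mul_comm]
    congr 1
    exact Real.exp_log (hR.pos _ (Pm z hz.le))
  set Z := TT α β S i H p with hZ
  have hZe : Z = ∫ z in Ioi (0 : ℝ), Real.exp (-z) * H (P z) := TTe p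
  have bF : Bd (fun z => H (P z)) := k1.1
  -- pointwise facts
  have M1 : ∀ z, 0 ≤ z → ∀ u, fderiv ℝ M (P z) u = fderiv ℝ H (P z) u / H (P z) :=
    fun z hz => (Mder _ (Pm z hz)).1
  have M2 : ∀ z, 0 ≤ z → ∀ u w, fderiv ℝ (fderiv ℝ M) (P z) u w =
      fderiv ℝ (fderiv ℝ H) (P z) u w / H (P z) -
        fderiv ℝ H (P z) u * fderiv ℝ H (P z) w / H (P z) ^ 2 :=
    fun z hz => (Mder _ (Pm z hz)).2.1
  have M3 : ∀ z, 0 ≤ z → ∀ u w, fderiv ℝ (fderiv ℝ M) (P z) u w =
      fderiv ℝ (fderiv ℝ M) (P z) w u := by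
    intro z hz u w
    rw [M2 z hz, M2 z hz, (Mder _ (Pm z hz)).2.2 u w]
    ring
  -- Cauchy-Schwarz
  have CS : ∀ l, l ≠ i → (c l * DT (ew l)) ^ 2 * Z ≤
      ∫ z in Ioi (0 : ℝ), Real.exp (-z) * (H (P z) * (c l * fderiv ℝ M (P z) (ew l)) ^ 2) := by
    intro l hl
    have h1 : fderiv ℝ (TT α β S i H) p (ew l) =
        ∫ z in Ioi (0 : ℝ), Real.exp (-z) * (H (P z) * fderiv ℝ M (P z) (ew l)) := by
      rw [t1]
      refine int_congr fun z hz => ?_
      rw [dr_ew_ne hl, M1 z hz.le]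
      have := (hR.pos _ (Pm z hz.le)).ne'
      simp only [hPd] at this ⊢
      field_simp
    have h2 := cs bF (m6 l) (fun z hz => hR.pos _ (Pm z hz))
    rw [← h1, ← hZe, ← T1] at h2
    have h3 : ∫ z in Ioi (0 : ℝ), Real.exp (-z) * (H (P z) * (c l * fderiv ℝ M (P z) (ew l)) ^ 2) =
        c l ^ 2 * ∫ z in Ioi (0 : ℝ), Real.exp (-z) * (H (P z) * fderiv ℝ M (P z) (ew l) ^ 2) := by
      rw [← int_smul]
      refine int_congr fun z _ => ?_
      ring
    rw [h3, mul_pow, mul_assoc]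
    exact mul_le_mul_of_nonneg_left h2 (sq_nonneg _)
  have DTi : DT (ew i) = 0 := by
    rw [T1, t1]
    have : ∀ z, fderiv ℝ H (pt α β S i p z) (dr β S i (ew i) z) * Real.exp (-z) = 0 := by
      intro z
      rw [dr_ew_self, map_zero, zero_mul]
    simp [this]
  set B := ∑ l, (c l * DT (ew l)) ^ 2 with hB
  have hBZ : B * Z ≤ ∑ l ∈ Finset.univ.erase i,
      ∫ z in Ioi (0 : ℝ), Real.exp (-z) * (H (P z) * (c l * fderiv ℝ M (P z) (ew l)) ^ 2) := by
    rw [hB, ← Finset.add_sum_erase _ _ (Finset.mem_univ i), DTi, mul_zero, zero_pow two_ne_zero,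
      zero_add, Finset.sum_mul]
    exact Finset.sum_le_sum fun l hl => CS l (Finset.ne_of_mem_erase hl)
  -- the variance form
  have key := hV (fun z => M (P z)) (fun z => fderiv ℝ M (P z) (ew i) * (a * deriv S z))
    _ (fun z => fderiv ℝ M (P z) (dr β S i v z))
    (fun z => fderiv ℝ (fderiv ℝ M) (P z) (ew i) (dr β S i v z) * (a * deriv S z) +
        fderiv ℝ M (P z) (ew i) * (β * v.1 * deriv S z))
    (fun z => fderiv ℝ (fderiv ℝ M) (P z) (dr β S i v z) (dr β S i v z)) B m1 bl1 m3 m4 ?_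
  · have e1 : ∫ z in Ioi (0 : ℝ), Real.exp (M (P z) - z) = Z := by
      rw [hZe]
      exact int_congr fun z hz => hexp z hz
    have e2 : ∫ z in Ioi (0 : ℝ), Real.exp (M (P z) - z) *
        fderiv ℝ M (P z) (dr β S i v z) = fderiv ℝ (TT α β S i H) p v := by
      rw [t1]
      refine int_congr fun z hz => ?_
      have := (hR.pos _ (Pm z hz.le)).ne'
      rw [hexp z hz, M1 z hz.le]
      simp only [hPd] at this ⊢
      field_simp
    have e3 : ∫ z in Ioi (0 : ℝ), Real.exp (M (P z) - z) *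
        (fderiv ℝ (fderiv ℝ M) (P z) (dr β S i v z) (dr β S i v z) +
          fderiv ℝ M (P z) (dr β S i v z) ^ 2) = fderiv ℝ (fderiv ℝ (TT α β S i H)) p v v := by
      rw [t2]
      refine int_congr fun z hz => ?_
      have := (hR.pos _ (Pm z hz.le)).ne'
      rw [hexp z hz, M1 z hz.le, M2 z hz.le]
      simp only [hPd] at this ⊢
      field_simp
      ring
    simp only [e1, e2, e3] at key
    rw [T2]
    refine le_trans (le_of_eq ?_) key
    rw [div_pow, pow_two (fderiv ℝ (TT α β S i H) p v)]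
  · -- the core inequality
    intro q q1 hq hq0
    have hPi := hP (fun z => a * S z) (fun z => a * deriv S z) (fun z => a * deriv (deriv S) z)
      (fun z => H (P z)) (fun z => fderiv ℝ H (P z) (ew i))
      (fun z => fderiv ℝ (fderiv ℝ H) (P z) (ew i) (ew i)) (fun z => fderiv ℝ M (P z) (ew i))
      q q1 (β / a) bS1 bS2.2.1 bF k2 k5 (m6 i) hq hq0 ?_ ?_
    · have s1 : ∫ z in Ioi (0 : ℝ), Real.exp (M (P z) - z) *
          (fderiv ℝ (fderiv ℝ M) (P z) (dr β S i v z) (dr β S i v z) +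
            2 * q z * (fderiv ℝ (fderiv ℝ M) (P z) (ew i) (dr β S i v z) * (a * deriv S z) +
              fderiv ℝ M (P z) (ew i) * (β * v.1 * deriv S z)) +
            q z ^ 2 * (fderiv ℝ (fderiv ℝ M) (P z) (ew i) (ew i) * (a * deriv S z) *
              (a * deriv S z) + fderiv ℝ M (P z) (ew i) * (a * deriv (deriv S) z)) - q1 z ^ 2) =
          ∫ z in Ioi (0 : ℝ), Real.exp (-z) * (H (P z) *
          (fderiv ℝ (fderiv ℝ M) (P z) (dr β S i v z) (dr β S i v z) +
            2 * q z * (fderiv ℝ (fderiv ℝ M) (P z) (ew i) (dr β S i v z) * (a * deriv S z) +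
              fderiv ℝ M (P z) (ew i) * (β * v.1 * deriv S z)) +
            q z ^ 2 * (fderiv ℝ (fderiv ℝ M) (P z) (ew i) (ew i) * (a * deriv S z) *
              (a * deriv S z) + fderiv ℝ M (P z) (ew i) * (a * deriv (deriv S) z)) - q1 z ^ 2)) := by
        refine int_congr fun z hz => ?_
        rw [hexp z hz, mul_assoc]
      have bsum : Bd (fun z => ∑ l ∈ Finset.univ.erase i,
          H (P z) * (c l * fderiv ℝ M (P z) (ew l)) ^ 2) :=
        Bd.sum _ fun l _ => Bd.mul bF (Bd.sq (Bd.mul (Bd.const _) (m6 l)))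
      have bP : Bd (fun z => H (P z) * ((β / a * (a * S z) + a * deriv S z * q z) ^ 2 *
          fderiv ℝ M (P z) (ew i) ^ 2 - 2 * (β / a) * (a * deriv S z) * q z *
          fderiv ℝ M (P z) (ew i) - a * deriv (deriv S) z * q z ^ 2 * fderiv ℝ M (P z) (ew i) +
          q1 z ^ 2)) := by
        refine Bd.mul bF (Bd.add (Bd.sub (Bd.sub (Bd.mul (Bd.sq (Bd.add
          (Bd.mul (Bd.const _) bS1.1) (Bd.mul bS1.2.1 hq.1))) (Bd.sq (m6 i))) ?_) ?_)
          (Bd.sq hq.2.1))
        · exact Bd.mul (Bd.mul (Bd.mul (Bd.const _) bS1.2.1) hq.1) (m6 i)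
        · exact Bd.mul (Bd.mul bS2.2.1 (Bd.sq hq.1)) (m6 i)
      have s2 : ∫ z in Ioi (0 : ℝ), Real.exp (-z) * (H (P z) *
          (fderiv ℝ (fderiv ℝ M) (P z) (dr β S i v z) (dr β S i v z) +
            2 * q z * (fderiv ℝ (fderiv ℝ M) (P z) (ew i) (dr β S i v z) * (a * deriv S z) +
              fderiv ℝ M (P z) (ew i) * (β * v.1 * deriv S z)) +
            q z ^ 2 * (fderiv ℝ (fderiv ℝ M) (P z) (ew i) (ew i) * (a * deriv S z) *
              (a * deriv S z) + fderiv ℝ M (P z) (ew i) * (a * deriv (deriv S) z)) - q1 z ^ 2)) ≤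
          ∫ z in Ioi (0 : ℝ), Real.exp (-z) * ((-1) * (∑ l ∈ Finset.univ.erase i,
            H (P z) * (c l * fderiv ℝ M (P z) (ew l)) ^ 2) +
            (-1) * (H (P z) * ((β / a * (a * S z) + a * deriv S z * q z) ^ 2 *
          fderiv ℝ M (P z) (ew i) ^ 2 - 2 * (β / a) * (a * deriv S z) * q z *
          fderiv ℝ M (P z) (ew i) - a * deriv (deriv S) z * q z ^ 2 * fderiv ℝ M (P z) (ew i) +
          q1 z ^ 2))) := by
        refine int_mono ?_ ?_ ?_
        · exact Bd.mul bF (Bd.sub (Bd.add (Bd.add m4 (Bd.mul (Bd.mul (Bd.const 2) hq.1) m3.2.1))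
            (Bd.mul (Bd.sq hq.1) bl1.2.1)) (Bd.sq hq.2.1))
        · exact Bd.add (Bd.mul (Bd.const _) bsum) (Bd.mul (Bd.const _) bP)
        · intro z hz
          have hH := hR.pos _ (Pm z hz.le)
          have hh := hR.hess _ (Pm z hz.le) (Function.update c i (β * S z + q z * (a * deriv S z)))
          rw [vec_eq, ← Finset.add_sum_erase _ _ (Finset.mem_univ i), Function.update_self] at hh
          have hs : ∑ l ∈ Finset.univ.erase i, (Function.update c i (β * S z + q z *
              (a * deriv S z)) l * fderiv ℝ (fun q => Real.log (H q)) (P z) (ew l)) ^ 2 =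
              ∑ l ∈ Finset.univ.erase i, (c l * fderiv ℝ M (P z) (ew l)) ^ 2 := by
            refine Finset.sum_congr rfl fun l hl => ?_
            rw [Function.update_of_ne (Finset.ne_of_mem_erase hl)]
          rw [hs] at hh
          simp only [map_add, map_smul, _root_.add_apply,
            _root_.smul_apply, smul_eq_mul] at hh
          have hsym := M3 z hz.le (dr β S i v z) (ew i)
          rw [← Finset.mul_sum]
          have hγ : β / a * (a * S z) = β * S z := by field_simp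
          have hγ2 : 2 * (β / a) * (a * deriv S z) = 2 * (β * deriv S z) := by field_simp
          rw [hγ, hγ2]
          have : ∀ X Y : ℝ, X ≤ Y → H (P z) * X ≤ H (P z) * Y := fun X Y h =>
            mul_le_mul_of_nonneg_left h hH.le
          refine (this _ (-(∑ l ∈ Finset.univ.erase i, (c l * fderiv ℝ M (P z) (ew l)) ^ 2) -
              ((β * S z + a * deriv S z * q z) ^ 2 * fderiv ℝ M (P z) (ew i) ^ 2 -
              2 * (β * deriv S z) * q z * fderiv ℝ M (P z) (ew i) -
              a * deriv (deriv S) z * q z ^ 2 * fderiv ℝ M (P z) (ew i) + q1 z ^ 2)) ?_).trans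
              (le_of_eq ?_)
          · have hv1 : v.1 = 1 := rfl
            rw [hv1]
            simp only [hM, hv] at hh hsym ⊢
            rw [hsym] at hh
            exact alg _ _ _ _ _ _ _ _ _ _ _ _ hh
          · ring
      have s3 : ∫ z in Ioi (0 : ℝ), Real.exp (-z) * ((-1) * (∑ l ∈ Finset.univ.erase i,
            H (P z) * (c l * fderiv ℝ M (P z) (ew l)) ^ 2) +
            (-1) * (H (P z) * ((β / a * (a * S z) + a * deriv S z * q z) ^ 2 *
          fderiv ℝ M (P z) (ew i) ^ 2 - 2 * (β / a) * (a * deriv S z) * q z *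
          fderiv ℝ M (P z) (ew i) - a * deriv (deriv S) z * q z ^ 2 * fderiv ℝ M (P z) (ew i) +
          q1 z ^ 2))) = (-1) * (∑ l ∈ Finset.univ.erase i,
      ∫ z in Ioi (0 : ℝ), Real.exp (-z) * (H (P z) * (c l * fderiv ℝ M (P z) (ew l)) ^ 2)) +
          (-1) * ∫ z in Ioi (0 : ℝ), Real.exp (-z) * (H (P z) *
          ((β / a * (a * S z) + a * deriv S z * q z) ^ 2 *
          fderiv ℝ M (P z) (ew i) ^ 2 - 2 * (β / a) * (a * deriv S z) * q z *
          fderiv ℝ M (P z) (ew i) - a * deriv (deriv S) z * q z ^ 2 * fderiv ℝ M (P z) (ew i) +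
          q1 z ^ 2)) := by
        rw [int_add (Bd.mul (Bd.const _) bsum) (Bd.mul (Bd.const _) bP), int_smul, int_smul,
          int_sum _ fun l _ => Bd.mul bF (Bd.sq (Bd.mul (Bd.const _) (m6 l)))]
      have e1 : ∫ z in Ioi (0 : ℝ), Real.exp (M (P z) - z) = Z := by
        rw [hZe]
        exact int_congr fun z hz => hexp z hz
      rw [e1]
      refine (s1.trans_le s2).trans (s3.trans_le ?_)
      have hPi' : 0 ≤ ∫ z in Ioi (0 : ℝ), Real.exp (-z) * (H (P z) *
          ((β / a * (a * S z) + a * deriv S z * q z) ^ 2 *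
          fderiv ℝ M (P z) (ew i) ^ 2 - 2 * (β / a) * (a * deriv S z) * q z *
          fderiv ℝ M (P z) (ew i) - a * deriv (deriv S) z * q z ^ 2 * fderiv ℝ M (P z) (ew i) +
          q1 z ^ 2)) := hPi
      linarith
    · intro z hz
      have hH := hR.pos _ (Pm z hz)
      refine ⟨mul_pos a0 (hS.pos z hz), mul_nonneg a0.le (hS.d1 z hz),
        mul_nonpos_of_nonneg_of_nonpos a0.le (hS.d2 z hz), hH, ?_⟩
      have := M1 z hz (ew i)
      show fderiv ℝ H (P z) (ew i) = H (P z) * fderiv ℝ M (P z) (ew i)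
      rw [this]
      field_simp
    · intro z hz
      have := hW (P z) (Pm z hz)
      have h2 : (P z).2 i = a * S z := by simp [hPd, pt, ha]
      rw [h2] at this
      exact this

end Pool.Agent.Lib.MP_2d002d_gt.PM.H79
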